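import Pool.Agent.Results.MP_03ef3d_ag.FanoDoubleCovers
import Pool.Agent.V11285.SR

/-!
# The Hasse principle for the twists of Fano double covers by the members of sparse sequences

Let `X_a : w² = a F(x; u, v)`, `F = A u² + B u v + D v²` a form of bidegree `(2 d, 2)` with integral coefficients such that
the divisor `F = 0` in `ℙⁿ × ℙ¹` is smooth. For `c > 1` and all `α > 0` outside a set `E` of Hausdorff dimension less than `1`
(the same for all `n`, `d`, `F`): for all but `o(N)` of the `k ≤ N` the Hasse principle holds for `X_a`, `|a| = ⌊α k ^ c⌋`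
squarefree; and at least `δ N` of the `k ≤ N` are such that `|a| = ⌊α k ^ c⌋` is squarefree and `X_a` has a rational point for
one of the signs of `a`, `δ > 0` depending on `F` only.
-/

set_option autoImplicit false

namespace Pool.Agent.Results.MP_03ef3d_ag.SparseTwists

open Filter Finset
open Pool.Agent.Results.MP_03ef3d_ag.FanoDoubleCovers (SmoothBranch HasPoint locallySoluble globallySoluble cast_point)

/-- Some twist `X_a` with `|a| = m` squarefree violates the Hasse principle: it has points everywhere locally and no rational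
point. -/
def Fails {n : ℕ} (A B D : MvPolynomial (Fin (n + 1)) ℤ) (m : ℕ) : Prop :=
  ∃ a : ℤ, a.natAbs = m ∧ Squarefree a ∧
    (HasPoint A B D a ℝ ∧ ∀ p : Nat.Primes, HasPoint A B D a ℚ_[(p : ℕ)]) ∧ ¬ HasPoint A B D a ℚ

/-- Some twist `X_a` with `|a| = m` squarefree has a rational point. -/
def Solvable {n : ℕ} (A B D : MvPolynomial (Fin (n + 1)) ℤ) (m : ℕ) : Prop :=
  ∃ a : ℤ, a.natAbs = m ∧ Squarefree a ∧ HasPoint A B D a ℚ

lemma countable_mv (n : ℕ) : Countable (MvPolynomial (Fin (n + 1)) ℤ) := by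
  rw [← Cardinal.mk_le_aleph0_iff]
  refine MvPolynomial.cardinalMk_le_max.trans ?_
  simp

lemma finL {n : ℕ} (A B D : MvPolynomial (Fin (n + 1)) ℤ) (H : ℕ) : (locallySoluble A B D H).Finite :=
  FanoDoubleCovers.fin_of fun _ ha => ha.1

lemma finG {n : ℕ} (A B D : MvPolynomial (Fin (n + 1)) ℤ) (H : ℕ) : (globallySoluble A B D H).Finite :=
  FanoDoubleCovers.fin_of fun _ ha => ha.1

lemma sub {n : ℕ} (A B D : MvPolynomial (Fin (n + 1)) ℤ) (H : ℕ) :
    globallySoluble A B D H ⊆ locallySoluble A B D H := fun _ ha =>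
  ⟨ha.1, ha.2.1, cast_point ℝ ha.2.2, fun p => cast_point ℚ_[(p : ℕ)] ha.2.2⟩

lemma card_le {n : ℕ} (A B D : MvPolynomial (Fin (n + 1)) ℤ) (H : ℕ) :
    ((locallySoluble A B D H).ncard : ℝ) ≤ 2 * H + 1 := by
  have h1 : locallySoluble A B D H ⊆ ↑(Finset.Icc (-(H : ℤ)) H) := fun a ha => by
    rw [Finset.coe_Icc]
    exact Set.mem_Icc.2 (abs_le.1 ha.1)
  have h2 := Set.ncard_le_ncard h1 (Finset.finite_toSet _)
  rw [Set.ncard_coe_finset, Int.card_Icc] at h2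
  have h3 : ((H : ℤ) + 1 - -(H : ℤ)).toNat = 2 * H + 1 := by omega
  rw [h3] at h2
  exact_mod_cast h2

/-- the numbers of the violations -/
lemma fails_le {n : ℕ} (A B D : MvPolynomial (Fin (n + 1)) ℤ) (H : ℕ) :
    (({m : ℕ | 1 ≤ m ∧ m ≤ H ∧ Fails A B D m}.ncard : ℕ) : ℝ) ≤
      ((locallySoluble A B D H).ncard : ℝ) - ((globallySoluble A B D H).ncard : ℝ) := by
  have h1 : {m : ℕ | 1 ≤ m ∧ m ≤ H ∧ Fails A B D m} ⊆
      Int.natAbs '' (locallySoluble A B D H \ globallySoluble A B D H) := by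
    rintro m ⟨_, hm, a, ha, hsq, hloc, hglob⟩
    have h2 : |a| ≤ (H : ℤ) := by
      rw [Int.abs_eq_natAbs, ha]
      exact_mod_cast hm
    exact ⟨a, ⟨⟨h2, hsq, hloc.1, hloc.2⟩, fun h => hglob h.2.2⟩, ha⟩
  have hf : (locallySoluble A B D H \ globallySoluble A B D H).Finite := (finL A B D H).subset Set.sdiff_subset
  have h3 := (Set.ncard_le_ncard h1 (hf.image _)).trans (Set.ncard_image_le hf)
  rw [Set.ncard_sdiff (sub A B D H) (finG A B D H)] at h3
  have h4 := Set.ncard_le_ncard (sub A B D H) (finL A B D H)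
  have h5 : (({m : ℕ | 1 ≤ m ∧ m ≤ H ∧ Fails A B D m}.ncard : ℕ) : ℝ) ≤
      (((locallySoluble A B D H).ncard - (globallySoluble A B D H).ncard : ℕ) : ℝ) := by exact_mod_cast h3
  rwa [Nat.cast_sub h4] at h5

/-- the numbers of the solvable twists -/
lemma solvable_ge {n : ℕ} (A B D : MvPolynomial (Fin (n + 1)) ℤ) (H : ℕ) :
    ((globallySoluble A B D H).ncard : ℝ) ≤ 2 * (({m : ℕ | 1 ≤ m ∧ m ≤ H ∧ Solvable A B D m}.ncard : ℕ) : ℝ) := by
  set S : Set ℕ := {m : ℕ | 1 ≤ m ∧ m ≤ H ∧ Solvable A B D m} with hS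
  have hf : S.Finite := (Set.finite_Icc 1 H).subset fun m hm => ⟨hm.1, hm.2.1⟩
  have h1 : globallySoluble A B D H ⊆ ((fun m : ℕ => (m : ℤ)) '' S) ∪ ((fun m : ℕ => -(m : ℤ)) '' S) := by
    rintro a ⟨h2, h3, h4⟩
    have h5 : a.natAbs ∈ S := by
      refine ⟨Nat.one_le_iff_ne_zero.2 (Int.natAbs_ne_zero.2 h3.ne_zero), ?_, a, rfl, h3, h4⟩
      rw [Int.abs_eq_natAbs] at h2
      exact_mod_cast h2
    rcases Int.natAbs_eq a with h6 | h6
    · exact Or.inl ⟨a.natAbs, h5, h6.symm⟩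
    · exact Or.inr ⟨a.natAbs, h5, h6.symm⟩
  have h2 := Set.ncard_le_ncard h1 ((hf.image _).union (hf.image _))
  have h3 := Set.ncard_union_le ((fun m : ℕ => (m : ℤ)) '' S) ((fun m : ℕ => -(m : ℤ)) '' S)
  have h4 := Set.ncard_image_le (f := fun m : ℕ => (m : ℤ)) hf
  have h5 := Set.ncard_image_le (f := fun m : ℕ => -(m : ℤ)) hf
  have h6 : (globallySoluble A B D H).ncard ≤ 2 * S.ncard := by omega
  exact_mod_cast h6

/-- **The Hasse principle for the twists by the members of sparse sequences.** -/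
theorem result : ∃ δ : ∀ n : ℕ, MvPolynomial (Fin (n + 1)) ℤ → MvPolynomial (Fin (n + 1)) ℤ →
      MvPolynomial (Fin (n + 1)) ℤ → ℝ, (∀ n A B D, 0 < δ n A B D) ∧
    ∀ c : ℝ, 1 < c → ∃ E : Set ℝ, dimH E < 1 ∧ ∀ α : ℝ, 0 < α → α ∉ E →
      ∀ (n d : ℕ), 1 ≤ n → 1 ≤ d → ∀ A B D : MvPolynomial (Fin (n + 1)) ℤ,
        A.IsHomogeneous (2 * d) → B.IsHomogeneous (2 * d) → D.IsHomogeneous (2 * d) → SmoothBranch A B D →
        (∀ ε : ℝ, 0 < ε → ∀ᶠ N : ℕ in atTop,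
          ({k : ℕ | 1 ≤ k ∧ k ≤ N ∧ Fails A B D ⌊α * (k : ℝ) ^ c⌋₊}.ncard : ℝ) ≤ ε * N) ∧
        ∀ᶠ N : ℕ in atTop,
          δ n A B D * N ≤ ({k : ℕ | 1 ≤ k ∧ k ≤ N ∧ Solvable A B D ⌊α * (k : ℝ) ^ c⌋₊}.ncard : ℝ) := by
  classical
  have key : ∀ (n : ℕ) (A B D : MvPolynomial (Fin (n + 1)) ℤ), ∃ δ : ℝ, 0 < δ ∧ ∀ d : ℕ, 1 ≤ n → 1 ≤ d →
      A.IsHomogeneous (2 * d) → B.IsHomogeneous (2 * d) → D.IsHomogeneous (2 * d) → SmoothBranch A B D →
      ∀ᶠ H : ℕ in atTop, 2 * δ * H ≤ (({m : ℕ | 1 ≤ m ∧ m ≤ H ∧ Solvable A B D m}.ncard : ℕ) : ℝ) := by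
    intro n A B D
    by_cases h : ∃ d : ℕ, 1 ≤ n ∧ 1 ≤ d ∧ A.IsHomogeneous (2 * d) ∧ B.IsHomogeneous (2 * d) ∧
      D.IsHomogeneous (2 * d) ∧ SmoothBranch A B D
    · obtain ⟨d, hn, hd, hA, hB, hD, hs⟩ := h
      obtain ⟨⟨c, hc, h1⟩, h2⟩ := FanoDoubleCovers.result n d hn hd A B D hA hB hD hs
      refine ⟨c / 8, by positivity, fun _ _ _ _ _ _ _ => ?_⟩
      have h3 : ∀ᶠ H : ℕ in atTop, (1 / 2 : ℝ) < ((globallySoluble A B D H).ncard : ℝ) /
          ((locallySoluble A B D H).ncard : ℝ) := h2.eventually (lt_mem_nhds (by norm_num))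
      filter_upwards [h1, h3, eventually_ge_atTop 1] with H g1 g2 g3
      have hH : (1 : ℝ) ≤ H := by exact_mod_cast g3
      have g4 : (0 : ℝ) < ((locallySoluble A B D H).ncard : ℝ) := lt_of_lt_of_le (by positivity) g1
      rw [lt_div_iff₀ g4] at g2
      have g5 := solvable_ge A B D H
      linarith
    · refine ⟨1, one_pos, fun d hn hd hA hB hD hs => absurd ⟨d, hn, hd, hA, hB, hD, hs⟩ h⟩
  choose δ hδ hkey using key
  refine ⟨δ, hδ, fun c hc => ?_⟩
  have : ∀ n : ℕ, Countable (MvPolynomial (Fin (n + 1)) ℤ) := countable_mv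
  let ι : Type := Σ n : ℕ, MvPolynomial (Fin (n + 1)) ℤ × MvPolynomial (Fin (n + 1)) ℤ × MvPolynomial (Fin (n + 1)) ℤ
  obtain ⟨E₁, hE₁, hs₁⟩ := Pool.Agent.Y854.GM.sets c hc (fun i : ι => {m | Fails i.2.1 i.2.2.1 i.2.2.2 m})
  obtain ⟨E₂, hE₂, hs₂⟩ := Pool.Agent.V11285.SR.lower c hc (fun (i : ι) (m : ℕ) => Solvable i.2.1 i.2.2.1 i.2.2.2 m)
  refine ⟨E₁ ∪ E₂, ?_, fun α hα hαE n d hn hd A B D hA hB hD hs => ⟨fun ε hε => ?_, ?_⟩⟩
  · rw [dimH_union]
    exact max_lt hE₁ hE₂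
  · have hαE₁ : α ∉ E₁ := fun h => hαE (Or.inl h)
    obtain ⟨_, h2⟩ := FanoDoubleCovers.result n d hn hd A B D hA hB hD hs
    have h3 : ∀ᶠ H : ℕ in atTop, (1 - ε / 8 : ℝ) < ((globallySoluble A B D H).ncard : ℝ) /
        ((locallySoluble A B D H).ncard : ℝ) := h2.eventually (lt_mem_nhds (by linarith))
    have hbad : ∃ X0 : ℕ, ∀ X : ℕ, X0 ≤ X →
        (((Ioc 0 X).filter (fun t => t ∈ {m | Fails A B D m})).card : ℝ) ≤ ε / 2 * X := by
      obtain ⟨X0, hX0⟩ := eventually_atTop.1 h3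
      refine ⟨max X0 1, fun X hX => ?_⟩
      have hX1 : X0 ≤ X := (le_max_left _ _).trans hX
      have hX2 : (1 : ℝ) ≤ X := by exact_mod_cast (le_max_right _ _).trans hX
      have g1 := hX0 X hX1
      have g2 := fails_le A B D X
      have g3 := card_le A B D X
      have e1 : {m : ℕ | 1 ≤ m ∧ m ≤ X ∧ Fails A B D m} =
          ↑((Ioc 0 X).filter (fun t => t ∈ {m | Fails A B D m})) := by
        ext m
        simp only [Finset.coe_filter, Finset.mem_Ioc, Set.mem_ofPred_eq]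
        constructor
        · rintro ⟨q1, q2, q3⟩
          exact ⟨⟨by omega, q2⟩, q3⟩
        · rintro ⟨⟨q1, q2⟩, q3⟩
          exact ⟨by omega, q2, q3⟩
      rw [e1, Set.ncard_coe_finset] at g2
      rcases Nat.eq_zero_or_pos (locallySoluble A B D X).ncard with hz | hz
      · rw [hz] at g2
        have g4 : (0 : ℝ) ≤ ((globallySoluble A B D X).ncard : ℝ) := Nat.cast_nonneg _
        have g5 : (0 : ℝ) ≤ ε / 2 * X := by positivity
        push_cast at g2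
        linarith
      · have hz' : (0 : ℝ) < ((locallySoluble A B D X).ncard : ℝ) := by exact_mod_cast hz
        rw [lt_div_iff₀ hz'] at g1
        have g6 : ε / 8 * ((locallySoluble A B D X).ncard : ℝ) ≤ ε / 8 * (2 * X + 1) :=
          mul_le_mul_of_nonneg_left g3 (by positivity)
        nlinarith
    obtain ⟨N0, hN0⟩ := (hs₁ α hα hαE₁ ⟨n, A, B, D⟩ (ε / 2) (ε / 2) (by positivity)).1 (by convert hbad)
    filter_upwards [eventually_ge_atTop N0] with N hN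
    have h1 := hN0 N hN
    have h4 : ε / 2 + ε / 2 = ε := by ring
    rw [h4] at h1
    have h2 : {k : ℕ | 1 ≤ k ∧ k ≤ N ∧ Fails A B D ⌊α * (k : ℝ) ^ c⌋₊} =
        ↑((Icc 1 N).filter (fun k : ℕ => ⌊α * (k : ℝ) ^ c⌋₊ ∈ {m | Fails A B D m})) := by
      ext k
      simp only [Finset.coe_filter, Finset.mem_Icc, Set.mem_ofPred_eq]
      tauto
    rw [h2, Set.ncard_coe_finset]
    convert h1
  · have hαE₂ : α ∉ E₂ := fun h => hαE (Or.inr h)
    have h1 := hs₂ α hα hαE₂ ⟨n, A, B, D⟩ (2 * δ n A B D) (δ n A B D) (hδ n A B D)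
      (hkey n A B D d hn hd hA hB hD hs)
    refine h1.mono fun N hN => ?_
    have e : 2 * δ n A B D - δ n A B D = δ n A B D := by ring
    rw [e] at hN
    exact hN

end Pool.Agent.Results.MP_03ef3d_ag.SparseTwists
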